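import Pool.Agent.Lib.MP_eee7a8_ag.TB.IfaceA

/-! # TAGBR: FIRST (helper2) -/

open Matrix

namespace Pool.Agent.Lib.MP_eee7a8_ag.TB

namespace AFirst

theorem comb {a b c d p q : Cusp} (h : Cross a b c d) (_h1 : ¬ Cross p q a c) (h2 : ¬ Cross p q a d)
    (h3 : ¬ Cross p q c d) (h4 : Cross p q d b) : Cross p q a b := by
  simp only [cross_iff] at *
  grind (splits := 60)

theorem half {G : Subgroup SLZ} {ι : Type} {T : Fam ι} (hT : T.IsTri G) {a b c d : Cusp}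
    (hfin : {p : Cusp × Cusp | T.E G p.1 p.2 ∧ Cross p.1 p.2 a b}.Finite)
    (hac : T.E G a c) (had : T.E G a d) (hcd : T.E G c d) (h : Cross a b c d) :
    Set.ncard {p : Cusp × Cusp | T.E G p.1 p.2 ∧ Cross p.1 p.2 d b} <
      Set.ncard {p : Cusp × Cusp | T.E G p.1 p.2 ∧ Cross p.1 p.2 a b} := by
  apply Set.ncard_lt_ncard _ hfin
  rw [Set.ssubset_iff_of_subset]
  · refine ⟨(c, d), ⟨hcd, cross_swap.1 h⟩, ?_⟩
    rintro ⟨-, h'⟩
    exact h'.ne.2.2.2.1 rfl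
  · rintro ⟨p, q⟩ ⟨hpq, hc⟩
    exact ⟨hpq, comb h (hT.nocross _ _ _ _ hpq hac) (hT.nocross _ _ _ _ hpq had)
      (hT.nocross _ _ _ _ hpq hcd) hc⟩

end AFirst

/-- FIRST -/
theorem first : FamFinStatement → FirstStatement := by
  intro famfin G ι _ T hT a b c d hac had hcd h
  have := Fintype.ofFinite ι
  have hfin := famfin G ι T a b
  exact ⟨AFirst.half hT hfin hac had hcd h,
    AFirst.half hT hfin had hac hcd.symm (cross_comm_right.1 h)⟩

end Pool.Agent.Lib.MP_eee7a8_ag.TB
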