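import Pool.Agent.Lib.MP_eee7a8_ag.TB.IfaceA
import Pool.Agent.Lib.MP_eee7a8_ag.TB.A.Coord

/-! # TAGBR: NOSWAP and TRANS (helper2) -/

open Matrix

namespace Pool.Agent.Lib.MP_eee7a8_ag.TB

/-- NOSWAP -/
theorem noswap : NoSwapStatement := by
  intro G hG g hg a b hab hba
  by_contra hne
  have htr := hG.tor g hg
  have hdt : dt a b ≠ 0 := dt_ne_zero hne
  have x1 := smul_x g a
  have y1 := smul_y g a
  have x2 := smul_x g b
  have y2 := smul_y g b
  rw [hab] at x1 y1
  rw [hba] at x2 y2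
  have htrace : g.1.trace = g.1 0 0 + g.1 1 1 := Matrix.trace_fin_two _
  have key : g.1.trace * dt a b = 0 := by
    rw [htrace, dt]
    -- det(g a, b) + det(a, g b) = 0
    have e1 : (g.1 0 0 * a.x + g.1 0 1 * a.y) * b.y - (g.1 1 0 * a.x + g.1 1 1 * a.y) * b.x = 0 := by
      rw [← x1, ← y1]; ring
    have e2 : a.x * (g.1 1 0 * b.x + g.1 1 1 * b.y) - a.y * (g.1 0 0 * b.x + g.1 0 1 * b.y) = 0 := by
      rw [← x2, ← y2]; ring
    linear_combination e1 + e2
  rcases mul_eq_zero.1 key with h | h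
  · rw [h] at htr
    norm_num at htr
  · exact hdt h

namespace ATrans

/-- the matrix with given columns -/
def mat (x y u v : ℤ) (h : x * v - u * y = 1) : SLZ :=
  ⟨!![x, u; y, v], by rw [Matrix.det_fin_two_of]; linarith⟩

theorem mat_infty (a : Cusp) (u v : ℤ) (h : a.x * v - u * a.y = 1) :
    mat a.x a.y u v h • infty = a := by
  apply dt_eq_zero.1
  have hx := smul_x (mat a.x a.y u v h) infty
  have hy := smul_y (mat a.x a.y u v h) infty
  have e1 : (mat a.x a.y u v h).1 0 0 * infty.x + (mat a.x a.y u v h).1 0 1 * infty.y = a.x := by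
    change a.x * 1 + u * 0 = a.x
    ring
  have e2 : (mat a.x a.y u v h).1 1 0 * infty.x + (mat a.x a.y u v h).1 1 1 * infty.y = a.y := by
    change a.y * 1 + v * 0 = a.y
    ring
  rw [e1] at hx
  rw [e2] at hy
  have h0 := eps_ne_zero (mat a.x a.y u v h) infty
  have : eps (mat a.x a.y u v h) infty * dt (mat a.x a.y u v h • infty) a = 0 := by
    rw [dt]
    linear_combination a.y * hx - a.x * hy
  exact (mul_eq_zero.1 this).resolve_left h0

theorem mat_zero (x y : ℤ) (b : Cusp) (e : ℤ) (_he : e = 1 ∨ e = -1)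
    (h : x * (e * b.y) - (e * b.x) * y = 1) :
    mat x y (e * b.x) (e * b.y) h • zero = b := by
  apply dt_eq_zero.1
  have hx := smul_x (mat x y (e * b.x) (e * b.y) h) zero
  have hy := smul_y (mat x y (e * b.x) (e * b.y) h) zero
  have e1 : (mat x y (e * b.x) (e * b.y) h).1 0 0 * zero.x +
      (mat x y (e * b.x) (e * b.y) h).1 0 1 * zero.y = e * b.x := by
    change x * 0 + (e * b.x) * 1 = _
    ring
  have e2 : (mat x y (e * b.x) (e * b.y) h).1 1 0 * zero.x +
      (mat x y (e * b.x) (e * b.y) h).1 1 1 * zero.y = e * b.y := by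
    change y * 0 + (e * b.y) * 1 = _
    ring
  rw [e1] at hx
  rw [e2] at hy
  have h0 := eps_ne_zero (mat x y (e * b.x) (e * b.y) h) zero
  have : eps (mat x y (e * b.x) (e * b.y) h) zero * dt (mat x y (e * b.x) (e * b.y) h • zero) b = 0 := by
    rw [dt]
    linear_combination b.y * hx - b.x * hy
  exact (mul_eq_zero.1 this).resolve_left h0

end ATrans

/-- TRANS -/
theorem trans : TransStatement := by
  constructor
  · intro a
    obtain ⟨g, hg⟩ := exists_smul_infty a
    exact ⟨g⁻¹, by rw [← hg, inv_smul_smul]⟩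
  · intro a b hab
    rcases abs_eq (by norm_num : (0 : ℤ) ≤ 1) |>.1 hab with h | h
    · have h' : a.x * (1 * b.y) - (1 * b.x) * a.y = 1 := by
        rw [dt] at h; linarith
      exact ⟨ATrans.mat a.x a.y (1 * b.x) (1 * b.y) h', ATrans.mat_infty a _ _ h',
        ATrans.mat_zero a.x a.y b 1 (Or.inl rfl) h'⟩
    · have h' : a.x * (-1 * b.y) - (-1 * b.x) * a.y = 1 := by
        rw [dt] at h; linarith
      exact ⟨ATrans.mat a.x a.y (-1 * b.x) (-1 * b.y) h', ATrans.mat_infty a _ _ h',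
        ATrans.mat_zero a.x a.y b (-1) (Or.inr rfl) h'⟩

end Pool.Agent.Lib.MP_eee7a8_ag.TB
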